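import Pool.Agent.Run7.h49.JT.Iface

/-!
# Pieces B1, B2, B3 of the project JT (helper49, MP_245e03_an): set theory
-/

set_option autoImplicit false

namespace Run7.h194.JT

open Set
open Run7.h49.JT

/-- an uncountable set has an uncountable fibre under a map into a countable type -/
theorem exists_fibre {δ : Type*} [Countable δ] (S : Set Br) (G : Br → δ) (hS : ¬ S.Countable) :
    ∃ v, ¬ {x ∈ S | G x = v}.Countable := by
  by_contra hc
  push Not at hc
  apply hS
  have h1 : S ⊆ ⋃ v, {x ∈ S | G x = v} := fun x hx => mem_iUnion.2 ⟨G x, hx, rfl⟩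
  exact (countable_iUnion hc).mono h1

theorem t_B1 : S_B1 := by
  intro S f m hS
  induction m with
  | zero =>
    exact ⟨S, ∅, Subset.rfl, hS, by simp, fun i hi => absurd hi (by omega), by simp⟩
  | succ m ih =>
    obtain ⟨S₁, I₁, h1, h2, h3, h4, h5⟩ := ih
    by_cases hd : ∃ d, ¬ {x ∈ S₁ | f m x = d}.Countable
    · obtain ⟨d, hd⟩ := hd
      refine ⟨{x ∈ S₁ | f m x = d}, I₁, (fun x hx => h1 hx.1), hd,
        fun i hi => (h3 i hi).trans (Nat.lt_succ_self m), ?_, ?_⟩
      · intro i hi hiI x hx x' hx'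
        rcases Nat.lt_succ_iff_lt_or_eq.1 hi with h | h
        · exact h4 i h hiI x hx.1 x' hx'.1
        · rw [h, hx.2, hx'.2]
      · intro i hi d'
        refine (h5 i hi d').mono ?_
        intro x hx
        exact ⟨hx.1.1, hx.2⟩
    · push Not at hd
      refine ⟨S₁, insert m I₁, h1, h2, ?_, ?_, ?_⟩
      · intro i hi
        rw [Finset.mem_insert] at hi
        rcases hi with h | h
        · omega
        · exact (h3 i h).trans (Nat.lt_succ_self m)
      · intro i hi hiI x hx x' hx'
        rw [Finset.mem_insert, not_or] at hiI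
        exact h4 i (by omega) hiI.2 x hx x' hx'
      · intro i hi d'
        rw [Finset.mem_insert] at hi
        rcases hi with h | h
        · rw [h]
          exact hd d'
        · exact h5 i h d'

theorem t_B2 : S_B2 := by
  intro γ _ S g hS
  set S' : Set Br := {x ∈ S | ∀ K, ¬ {x' ∈ S | g K x' = g K x}.Countable} with hS'
  have hdiff : (S \ S').Countable := by
    have h1 : S \ S' ⊆ ⋃ q : ℕ × γ, {x | x ∈ S ∧ g q.1 x = q.2 ∧
        {x' ∈ S | g q.1 x' = q.2}.Countable} := by
      rintro x ⟨hx, hx'⟩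
      have h2 : ¬ ∀ K, ¬ {x' ∈ S | g K x' = g K x}.Countable := fun h => hx' ⟨hx, h⟩
      push Not at h2
      obtain ⟨K, hK⟩ := h2
      exact mem_iUnion.2 ⟨(K, g K x), hx, rfl, hK⟩
    refine (countable_iUnion fun q => ?_).mono h1
    by_cases h : {x' ∈ S | g q.1 x' = q.2}.Countable
    · refine h.mono ?_
      intro x hx
      exact ⟨hx.1, hx.2.1⟩
    · convert countable_empty (α := Br)
      ext x
      constructor
      · intro hx
        exact h hx.2.2
      · intro hx
        exact absurd hx (notMem_empty x)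
  have hsub : S' ⊆ S := fun x hx => hx.1
  refine ⟨S', hsub, ?_, ?_⟩
  · by_contra hc
    rw [not_nonempty_iff_eq_empty] at hc
    rw [hc, sdiff_empty] at hdiff
    exact hS hdiff
  · intro x hx K hc
    apply hx.2 K
    refine (hc.union hdiff).mono ?_
    intro z hz
    by_cases hz' : z ∈ S'
    · exact Or.inl ⟨hz', hz.2⟩
    · exact Or.inr ⟨hz.1, hz'⟩

theorem t_B3 : S_B3 := by
  intro γ _ ι _ S g f η hη hS
  obtain ⟨v, hv⟩ := exists_fibre S (fun x => (g x, fun i : ι => ⌊f i x / η⌋)) hS
  refine ⟨_, fun x hx => hx.1, hv, ?_, ?_⟩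
  · intro x hx x' hx'
    have h1 := hx.2.trans hx'.2.symm
    exact congrArg Prod.fst h1
  · intro x hx x' hx' i
    have h1 := hx.2.trans hx'.2.symm
    have h2 := congrFun (congrArg Prod.snd h1) i
    have h3 := Int.abs_sub_lt_one_of_floor_eq_floor h2
    have h4 : f i x / η - f i x' / η = (f i x - f i x') / η := by ring
    rw [h4, abs_div, abs_of_pos hη, div_lt_one hη] at h3
    exact h3.le

end Run7.h194.JT
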