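import Pool.Agent.Run7.h49.JT.Iface

/-!
# Pieces L2, L3 of the project JT (helper49, MP_245e03_an)
-/

set_option autoImplicit false

namespace Run7.h194.JT

open Set
open Pool.Agent.R277.JT
open Run7.h49.JT

/-- push-forward of functions on the tree -/
noncomputable def pushT (Φ : Tree → Tree) : Pre Tree →ₗ[ℝ] Pre Tree :=
  (show (Tree →₀ ℝ) →ₗ[ℝ] (Tree →₀ ℝ) from Finsupp.lmapDomain ℝ ℝ Φ)

theorem pushT_val {Φ : Tree → Tree} (hΦ : Function.Injective Φ) (x : Pre Tree) (l : Tree) :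
    (pushT Φ x).val (Φ l) = x.val l := Finsupp.mapDomain_apply hΦ _ _

theorem pushT_val_not {Φ : Tree → Tree} (x : Pre Tree) {i : Tree} (hi : i ∉ range Φ) :
    (pushT Φ x).val i = 0 := Finsupp.mapDomain_of_notMem_range _ _ hi

theorem pushT_ev (Φ : Tree → Tree) (l : Tree) : pushT Φ (ev l) = ev (Φ l) := by
  change Finsupp.mapDomain Φ (Finsupp.single l (1:ℝ)) = Finsupp.single (Φ l) (1:ℝ)
  exact Finsupp.mapDomain_single

theorem inj_of {Φ : Tree → Tree} (hΦ : ∀ s t, Φ s ≤ Φ t ↔ s ≤ t) : Function.Injective Φ := by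
  intro s t h
  apply le_antisymm
  · exact (hΦ s t).1 h.le
  · exact (hΦ t s).1 h.ge

theorem norm_pushT_le {Φ : Tree → Tree} (hΦ : ∀ s t, Φ s ≤ Φ t ↔ s ≤ t) (x : Pre Tree) :
    ‖pushT Φ x‖ ≤ ‖x‖ := by
  classical
  have hinj := inj_of hΦ
  have h := sum_sq_abs ({()} : Finset Unit) (fun _ => pushT Φ x) x
    (fun _ S => S.preimage Φ hinj.injOn) ?_ ?_ ?_ ?_
  · rw [Finset.sum_singleton] at h
    exact le_of_sq_le_sq h (norm_nonneg x)
  · rintro - - S ⟨a, c, hac, hm⟩ hne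
    obtain ⟨m, hm1, hm2⟩ := (S.preimage Φ hinj.injOn).exists_minimal hne
    obtain ⟨M, hM1, hM2⟩ := (S.preimage Φ hinj.injOn).exists_maximal hne
    have hcomp : ∀ b ∈ S.preimage Φ hinj.injOn, ∀ b' ∈ S.preimage Φ hinj.injOn,
        b ≤ b' ∨ b' ≤ b := by
      intro b hb b' hb'
      rw [Finset.mem_preimage, hm] at hb hb'
      rcases Forest.comp _ _ _ hb.2 hb'.2 with h | h
      · exact Or.inl ((hΦ _ _).1 h)
      · exact Or.inr ((hΦ _ _).1 h)
    have hmin : ∀ b ∈ S.preimage Φ hinj.injOn, m ≤ b := by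
      intro b hb
      rcases hcomp m hm1 b hb with h | h
      · exact h
      · exact hm2 hb h
    have hmax : ∀ b ∈ S.preimage Φ hinj.injOn, b ≤ M := by
      intro b hb
      rcases hcomp M hM1 b hb with h | h
      · exact hM2 hb h
      · exact h
    refine ⟨m, M, hmin M hM1, fun b => ⟨fun hb => ⟨hmin b hb, hmax b hb⟩, ?_⟩⟩
    rintro ⟨h1, h2⟩
    rw [Finset.mem_preimage, hm] at hm1 hM1 ⊢
    exact ⟨hm1.1.trans ((hΦ _ _).2 h1), ((hΦ _ _).2 h2).trans hM1.2⟩
  · rintro - - S -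
    unfold ss
    rw [← Finset.sum_preimage Φ S hinj.injOn]
    · exact Finset.sum_congr rfl fun l _ => pushT_val hinj x l
    · intro i _ hi
      exact pushT_val_not x hi
  · rintro - - S S' - - hdis
    rw [Finset.disjoint_left] at hdis ⊢
    intro l h1 h2
    rw [Finset.mem_preimage] at h1 h2
    exact hdis h1 h2
  · rintro i - j - hij
    exact absurd rfl hij

theorem t_L2 : S_L2 := by
  intro Φ hΦ
  refine ⟨(pushT Φ).mkContinuous 1 (fun x => by rw [one_mul]; exact norm_pushT_le hΦ x),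
    fun t => pushT_ev Φ t, fun x => norm_pushT_le hΦ x⟩

theorem t_L3 : S_L3 := by
  classical
  intro y σ u I k K ε M hS s t hs ht i hi
  have h0 : ∀ t, 0 ∈ I t := by
    intro t
    induction t using Nat.strong_induction_on with
    | _ t ih =>
      rcases Nat.eq_zero_or_pos t with h | h
      · rw [h]
        exact hS.zero
      · exact hS.Isub t h (ih (t / 2) (by omega))
  have hKm : Monotone K := hS.Kmono.monotone
  have hp : t / 2 < t := by omega
  rw [_root_.sub_apply]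
  rcases lt_trichotomy s t with h | h | h
  · -- the two branches agree at the level `K (s + 1)`
    rw [if_neg (fun h' => absurd h'.1 (by omega))]
    have h1 : br (σ t i) (K (s + 1)) = br (σ (t / 2) i) (K (s + 1)) := by
      by_contra hc
      exact br_ne_of hc (hKm (show s + 1 ≤ t by omega)) (hS.agree t ht i hi)
    by_cases hc : br (σ t i) (K (s + 1)) = br (σ s 0) (K (s + 1))
    · have hc' : br (σ (t / 2) i) (K (s + 1)) = br (σ s 0) (K (s + 1)) := h1 ▸ hc
      by_cases hk : k (t / 2) ≤ K (s + 1)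
      · rw [sg_ev_br hk hc, sg_ev_br hk hc', sub_self]
      · rw [sg_ev_lt (not_le.1 hk), sg_ev_lt (not_le.1 hk), sub_self]
    · have hc' : br (σ (t / 2) i) (K (s + 1)) ≠ br (σ s 0) (K (s + 1)) := fun h' => hc (h1.trans h')
      rw [sg_ev_br_ne hc, sg_ev_br_ne hc', sub_self]
  · subst h
    have hk : k (s / 2) ≤ K (s + 1) := (hS.kK _ _ hp).trans (hKm (Nat.le_succ s))
    have h2 : br (σ (s / 2) i) (K (s + 1)) ≠ br (σ s 0) (K (s + 1)) :=
      hS.sep (s + 1) (s / 2) (by omega) s (by omega) i hi 0 (h0 s)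
        (fun h' => hS.fresh s ht 0 (h0 _) (s / 2) hp i hi h'.symm)
    rw [sg_ev_br_ne h2, sub_zero]
    by_cases hi0 : i = 0
    · rw [if_pos ⟨rfl, hi0⟩, hi0]
      exact sg_ev_br hk rfl
    · rw [if_neg (fun h' => hi0 h'.2)]
      have h3 : br (σ s i) (k (s / 2)) ≠ br (σ s 0) (k (s / 2)) :=
        hS.dist (s / 2) s ⟨1, by rw [pow_one]⟩ i hi 0 (h0 _) hi0
      exact sg_ev_br_ne (br_ne_of h3 hk)
  · rw [if_neg (fun h' => absurd h'.1 (by omega))]
    have hit : i ∈ I t := hS.Isub t ht hi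
    have h1 : br (σ t i) (K (s + 1)) ≠ br (σ s 0) (K (s + 1)) :=
      hS.sep (s + 1) t (by omega) s (by omega) i hit 0 (h0 s)
        (fun h' => hS.fresh s hs 0 (h0 _) t h i hit h'.symm)
    have h2 : br (σ (t / 2) i) (K (s + 1)) ≠ br (σ s 0) (K (s + 1)) :=
      hS.sep (s + 1) (t / 2) (by omega) s (by omega) i hi 0 (h0 s)
        (fun h' => hS.fresh s hs 0 (h0 _) (t / 2) (by omega) i hi h'.symm)
    rw [sg_ev_br_ne h1, sg_ev_br_ne h2, sub_self]

end Run7.h194.JT
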